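import Pool.Agent.CWB.Main

/-!
# Triangle-free graphs without induced `S_{1,2,3}` have bounded clique-width

`Pool.Agent.CWB.CliqueWidthLE G c`: some clique-width expression with `c` labels (single labelled
vertex, disjoint union, joining two different labels, renaming a label) builds a graph isomorphic
to `G`.  `Pool.Agent.CWB.S123` is the graph `S_{1,2,3}`.
-/

namespace Pool.Agent.Results.MP_6cb99c_lc.BoundedCliqueWidth

open Pool.Agent.CWB

/-- There is a constant `c` such that every finite nonempty triangle-free graph without an induced
subgraph isomorphic to `S_{1,2,3}` has clique-width at most `c`. -/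
theorem result : ∃ c : ℕ, ∀ (V : Type) [Finite V] [Nonempty V] (G : SimpleGraph V),
    G.CliqueFree 3 → ¬ S123.IsIndContained G → CliqueWidthLE G c :=
  main

end Pool.Agent.Results.MP_6cb99c_lc.BoundedCliqueWidth
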